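import Pool.Agent.H80.G2.Defs

/-!
# MP_323167_an: basic facts on the functional `tr` and the 2-norm
-/

set_option autoImplicit false
set_option linter.unusedSectionVars false

open scoped InnerProductSpace

namespace Pool.Agent.H80.G2

variable {H : Type} [NormedAddCommGroup H] [InnerProductSpace ℂ H] [CompleteSpace H]
  {ξ : ℕ → H}

theorem memlp (h : Summable fun n => ‖ξ n‖ ^ 2) (x : H →L[ℂ] H) :
    Memℓp (fun n => x (ξ n)) 2 := by
  refine memℓp_gen ?_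
  refine Summable.of_nonneg_of_le (fun n => by positivity) (fun n => ?_) (h.mul_left (‖x‖ ^ 2))
  have h1 : (2 : ENNReal).toReal = ((2 : ℕ) : ℝ) := by norm_num
  rw [h1, Real.rpow_natCast, ← mul_pow]
  exact pow_le_pow_left₀ (norm_nonneg _) (x.le_opNorm _) 2

/-- the embedding of `B(H)` into the Hilbert space `l^2(H)` -/
noncomputable def emb (h : Summable fun n => ‖ξ n‖ ^ 2) :
    (H →L[ℂ] H) →ₗ[ℂ] lp (fun _ : ℕ => H) 2 where
  toFun x := ⟨fun n => x (ξ n), memlp h x⟩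
  map_add' x y := rfl
  map_smul' c x := rfl

theorem emb_apply (h : Summable fun n => ‖ξ n‖ ^ 2) (x : H →L[ℂ] H) (n : ℕ) :
    (emb h x : ∀ _ : ℕ, H) n = x (ξ n) := rfl

theorem inner_emb (h : Summable fun n => ‖ξ n‖ ^ 2) (x y : H →L[ℂ] H) :
    ⟪emb h x, emb h y⟫_ℂ = tr ξ (star x * y) := by
  rw [lp.inner_eq_tsum]
  unfold tr
  congr 1
  funext n
  rw [emb_apply, emb_apply]
  change _ = ⟪ξ n, (star x) (y (ξ n))⟫_ℂ
  rw [ContinuousLinearMap.star_eq_adjoint, ContinuousLinearMap.adjoint_inner_right]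

theorem norm_emb (h : Summable fun n => ‖ξ n‖ ^ 2) (x : H →L[ℂ] H) : ‖emb h x‖ = n2 ξ x := by
  have h1 : (2 : ENNReal).toReal = ((2 : ℕ) : ℝ) := by norm_num
  have h2 := lp.norm_rpow_eq_tsum (p := 2) (by norm_num) (emb h x)
  rw [h1, Real.rpow_natCast] at h2
  unfold n2
  rw [← Real.sqrt_sq (norm_nonneg (emb h x)), h2]
  congr 2
  funext n
  rw [Real.rpow_natCast, emb_apply]

theorem n2_nonneg (ξ : ℕ → H) (x : H →L[ℂ] H) : 0 ≤ n2 ξ x := Real.sqrt_nonneg _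

theorem n2_zero (ξ : ℕ → H) : n2 ξ 0 = 0 := by
  unfold n2
  simp

theorem n2_add (h : Summable fun n => ‖ξ n‖ ^ 2) (x y : H →L[ℂ] H) :
    n2 ξ (x + y) ≤ n2 ξ x + n2 ξ y := by
  rw [← norm_emb h, ← norm_emb h, ← norm_emb h, map_add]
  exact norm_add_le _ _

theorem n2_neg (ξ : ℕ → H) (x : H →L[ℂ] H) : n2 ξ (-x) = n2 ξ x := by
  unfold n2
  simp

theorem n2_sub (h : Summable fun n => ‖ξ n‖ ^ 2) (x y : H →L[ℂ] H) :
    n2 ξ (x - y) ≤ n2 ξ x + n2 ξ y := by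
  rw [← norm_emb h, ← norm_emb h, ← norm_emb h, map_sub]
  exact norm_sub_le _ _

theorem n2_sub_comm (ξ : ℕ → H) (x y : H →L[ℂ] H) : n2 ξ (x - y) = n2 ξ (y - x) := by
  rw [← n2_neg, neg_sub]

theorem n2_sub_le (h : Summable fun n => ‖ξ n‖ ^ 2) (x y z : H →L[ℂ] H) :
    n2 ξ (x - z) ≤ n2 ξ (x - y) + n2 ξ (y - z) := by
  have := n2_add h (x - y) (y - z)
  rwa [sub_add_sub_cancel] at this

theorem n2_smul (h : Summable fun n => ‖ξ n‖ ^ 2) (c : ℂ) (x : H →L[ℂ] H) :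
    n2 ξ (c • x) = ‖c‖ * n2 ξ x := by
  rw [← norm_emb h, ← norm_emb h, map_smul, norm_smul]

theorem n2_par (h : Summable fun n => ‖ξ n‖ ^ 2) (x y : H →L[ℂ] H) :
    n2 ξ (x + y) ^ 2 + n2 ξ (x - y) ^ 2 = 2 * (n2 ξ x ^ 2 + n2 ξ y ^ 2) := by
  rw [← norm_emb h, ← norm_emb h, ← norm_emb h, ← norm_emb h, map_add, map_sub]
  have := parallelogram_law_with_norm ℂ (emb h x) (emb h y)
  simp only [sq]
  linarith

theorem n2_sum (h : Summable fun n => ‖ξ n‖ ^ 2) {ι : Type} (s : Finset ι)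
    (f : ι → (H →L[ℂ] H)) : n2 ξ (∑ i ∈ s, f i) ≤ ∑ i ∈ s, n2 ξ (f i) := by
  rw [← norm_emb h, map_sum]
  refine (norm_sum_le _ _).trans (le_of_eq ?_)
  exact Finset.sum_congr rfl fun i _ => norm_emb h _

theorem tr_star_mul (h : Summable fun n => ‖ξ n‖ ^ 2) (x : H →L[ℂ] H) :
    tr ξ (star x * x) = ((n2 ξ x ^ 2 : ℝ) : ℂ) := by
  rw [← inner_emb h, inner_self_eq_norm_sq_to_K, norm_emb]
  push_cast
  rfl

theorem summable_tr (h : Summable fun n => ‖ξ n‖ ^ 2) (x : H →L[ℂ] H) :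
    Summable fun n => ⟪ξ n, x (ξ n)⟫_ℂ := by
  refine Summable.of_norm_bounded (g := fun n => ‖x‖ * ‖ξ n‖ ^ 2) (h.mul_left _) fun n => ?_
  refine (norm_inner_le_norm _ _).trans ?_
  have := x.le_opNorm (ξ n)
  have h0 := norm_nonneg (ξ n)
  nlinarith

theorem tr_add (h : Summable fun n => ‖ξ n‖ ^ 2) (x y : H →L[ℂ] H) :
    tr ξ (x + y) = tr ξ x + tr ξ y := by
  unfold tr
  rw [← (summable_tr h x).tsum_add (summable_tr h y)]
  congr 1
  funext n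
  rw [add_apply, inner_add_right]

theorem tr_smul (ξ : ℕ → H) (c : ℂ) (x : H →L[ℂ] H) : tr ξ (c • x) = c * tr ξ x := by
  unfold tr
  rw [← tsum_mul_left]
  congr 1
  funext n
  rw [smul_apply, inner_smul_right]

theorem tr_neg (ξ : ℕ → H) (x : H →L[ℂ] H) : tr ξ (-x) = - tr ξ x := by
  have := tr_smul ξ (-1) x
  rwa [neg_one_smul, neg_one_mul] at this

theorem tr_sub (h : Summable fun n => ‖ξ n‖ ^ 2) (x y : H →L[ℂ] H) :
    tr ξ (x - y) = tr ξ x - tr ξ y := by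
  rw [sub_eq_add_neg, tr_add h, tr_neg, ← sub_eq_add_neg]

theorem tr_zero (ξ : ℕ → H) : tr ξ 0 = 0 := by
  unfold tr
  simp

theorem tr_sum (h : Summable fun n => ‖ξ n‖ ^ 2) {ι : Type} (s : Finset ι)
    (f : ι → (H →L[ℂ] H)) : tr ξ (∑ i ∈ s, f i) = ∑ i ∈ s, tr ξ (f i) := by
  classical
  induction s using Finset.induction_on with
  | empty => simp [tr_zero]
  | insert a s ha ih => rw [Finset.sum_insert ha, Finset.sum_insert ha, tr_add h, ih]

theorem tr_star (ξ : ℕ → H) (x : H →L[ℂ] H) : tr ξ (star x) = (starRingEnd ℂ) (tr ξ x) := by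
  unfold tr
  rw [Complex.conj_tsum]
  congr 1
  funext n
  rw [inner_conj_symm, ContinuousLinearMap.star_eq_adjoint,
    ContinuousLinearMap.adjoint_inner_right]

theorem tr_one' (h : HasSum (fun n => ‖ξ n‖ ^ 2) 1) : tr ξ 1 = 1 := by
  unfold tr
  have h1 : (fun n => ⟪ξ n, (1 : H →L[ℂ] H) (ξ n)⟫_ℂ) = fun n => ((‖ξ n‖ ^ 2 : ℝ) : ℂ) := by
    funext n
    rw [one_apply_eq_self, inner_self_eq_norm_sq_to_K]
    push_cast
    rfl
  rw [h1]
  have h2 := Complex.hasSum_ofReal.2 h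
  rw [h2.tsum_eq]
  norm_num

theorem n2_mul_le (h : Summable fun n => ‖ξ n‖ ^ 2) (x y : H →L[ℂ] H) :
    n2 ξ (x * y) ≤ ‖x‖ * n2 ξ y := by
  unfold n2
  rw [← Real.sqrt_sq (norm_nonneg x), ← Real.sqrt_mul (sq_nonneg _), ← tsum_mul_left]
  refine Real.sqrt_le_sqrt ?_
  have hs : ∀ z : H →L[ℂ] H, Summable fun n => ‖z (ξ n)‖ ^ 2 := by
    intro z
    refine Summable.of_nonneg_of_le (fun n => by positivity) (fun n => ?_) (h.mul_left (‖z‖ ^ 2))
    rw [← mul_pow]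
    exact pow_le_pow_left₀ (norm_nonneg _) (z.le_opNorm _) 2
  refine Summable.tsum_le_tsum (fun n => ?_) (hs _) ((hs y).mul_left _)
  rw [← mul_pow]
  exact pow_le_pow_left₀ (norm_nonneg _) (x.le_opNorm _) 2

theorem n2_one (h : HasSum (fun n => ‖ξ n‖ ^ 2) 1) : n2 ξ (1 : H →L[ℂ] H) = 1 := by
  unfold n2
  have : (∑' n, ‖(1 : H →L[ℂ] H) (ξ n)‖ ^ 2) = 1 := h.tsum_eq
  rw [this, Real.sqrt_one]

theorem n2_le_norm (h : HasSum (fun n => ‖ξ n‖ ^ 2) 1) (x : H →L[ℂ] H) : n2 ξ x ≤ ‖x‖ := by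
  have := n2_mul_le h.summable x 1
  rwa [mul_one, n2_one h, mul_one] at this

theorem norm_tr_le (h : HasSum (fun n => ‖ξ n‖ ^ 2) 1) (x : H →L[ℂ] H) :
    ‖tr ξ x‖ ≤ n2 ξ x := by
  have h1 := inner_emb h.summable (1 : H →L[ℂ] H) x
  rw [star_one, one_mul] at h1
  rw [← h1]
  refine (norm_inner_le_norm _ _).trans ?_
  rw [norm_emb, norm_emb, n2_one h, one_mul]

theorem norm_tr_le' (h : HasSum (fun n => ‖ξ n‖ ^ 2) 1) (x : H →L[ℂ] H) : ‖tr ξ x‖ ≤ ‖x‖ :=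
  (norm_tr_le h x).trans (n2_le_norm h x)

/-- Cauchy-Schwarz -/
theorem norm_tr_mul_le (h : Summable fun n => ‖ξ n‖ ^ 2) (x y : H →L[ℂ] H) :
    ‖tr ξ (star x * y)‖ ≤ n2 ξ x * n2 ξ y := by
  rw [← inner_emb h, ← norm_emb h, ← norm_emb h]
  exact norm_inner_le_norm _ _

/-! ### tracial states of von Neumann algebras -/

variable {M : VonNeumannAlgebra H}

theorem IsTr.sum (h : IsTr M ξ) : Summable fun n => ‖ξ n‖ ^ 2 := h.one.summable

theorem n2_star (h : IsTr M ξ) {x : H →L[ℂ] H} (hx : x ∈ M) : n2 ξ (star x) = n2 ξ x := by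
  have h1 := tr_star_mul h.sum x
  have h2 := tr_star_mul h.sum (star x)
  rw [star_star, h.comm x hx _ (star_mem hx), h1] at h2
  have h3 : n2 ξ x ^ 2 = n2 ξ (star x) ^ 2 := by exact_mod_cast h2
  exact ((sq_eq_sq₀ (n2_nonneg _ _) (n2_nonneg _ _)).1 h3).symm

theorem n2_mul_le' (h : IsTr M ξ) {x y : H →L[ℂ] H} (hx : x ∈ M) (hy : y ∈ M) :
    n2 ξ (x * y) ≤ n2 ξ x * ‖y‖ := by
  rw [← n2_star h (mul_mem hx hy), star_mul, ← n2_star h hx]
  refine (n2_mul_le h.sum _ _).trans (le_of_eq ?_)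
  rw [norm_star, mul_comm]

theorem eq_zero_of_n2 (h : IsTr M ξ) {x : H →L[ℂ] H} (hx : x ∈ M) (h0 : n2 ξ x = 0) : x = 0 := by
  refine h.faith x hx ?_
  rw [tr_star_mul h.sum, h0]
  norm_num

theorem n2_eq_zero_of_apply (ξ : ℕ → H) {x : H →L[ℂ] H} (h0 : ∀ n, x (ξ n) = 0) :
    n2 ξ x = 0 := by
  unfold n2
  have : (fun n => ‖x (ξ n)‖ ^ 2) = fun _ => (0 : ℝ) := by
    funext n
    rw [h0, norm_zero]
    norm_num
  rw [this, tsum_zero, Real.sqrt_zero]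

theorem eq_zero_of_apply (h : IsTr M ξ) {x : H →L[ℂ] H} (hx : x ∈ M)
    (h0 : ∀ n, x (ξ n) = 0) : x = 0 := eq_zero_of_n2 h hx (n2_eq_zero_of_apply ξ h0)

/-- the distance to the scalars -/
theorem n2_sub_tr (h : HasSum (fun n => ‖ξ n‖ ^ 2) 1) (x : H →L[ℂ] H) :
    n2 ξ (x - tr ξ x • (1 : H →L[ℂ] H)) ^ 2 = n2 ξ x ^ 2 - ‖tr ξ x‖ ^ 2 := by
  have h1 : ⟪emb h.summable (1 : H →L[ℂ] H), emb h.summable x⟫_ℂ = tr ξ x := by
    rw [inner_emb, star_one, one_mul]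
  have h2 : ‖emb h.summable (1 : H →L[ℂ] H)‖ = 1 := by rw [norm_emb, n2_one h]
  rw [← norm_emb h.summable, ← norm_emb h.summable, map_sub, map_smul]
  have h3 := @norm_sub_sq ℂ _ _ _ _ (emb h.summable x) (tr ξ x • emb h.summable 1)
  rw [inner_smul_right, norm_smul, h2, mul_one, ← inner_conj_symm, h1] at h3
  rw [h3]
  have h4 : RCLike.re (tr ξ x * (starRingEnd ℂ) (tr ξ x)) = ‖tr ξ x‖ ^ 2 := by
    rw [Complex.mul_conj, Complex.normSq_eq_norm_sq]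
    exact Complex.ofReal_re _
  rw [h4]
  ring

theorem norm_of_uni {u : H →L[ℂ] H} (hu : Uni M u) : ‖u‖ ≤ 1 := by
  have h1 := CStarRing.norm_star_mul_self (x := u)
  rw [hu.2.1] at h1
  have h2 : ‖(1 : H →L[ℂ] H)‖ ≤ 1 := ContinuousLinearMap.norm_id_le
  nlinarith [norm_nonneg u]

theorem Uni.star {u : H →L[ℂ] H} (hu : Uni M u) : Uni M (star u) :=
  ⟨star_mem hu.1, by rw [star_star]; exact hu.2.2, by rw [star_star]; exact hu.2.1⟩

theorem Uni.mul {u v : H →L[ℂ] H} (hu : Uni M u) (hv : Uni M v) : Uni M (u * v) := by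
  refine ⟨mul_mem hu.1 hv.1, ?_, ?_⟩
  · rw [star_mul, mul_assoc, ← mul_assoc (Star.star u), hu.2.1, one_mul, hv.2.1]
  · rw [star_mul, mul_assoc, ← mul_assoc v, hv.2.2, one_mul, hu.2.2]

theorem uni_one (M : VonNeumannAlgebra H) : Uni M 1 :=
  ⟨one_mem M, by rw [star_one, one_mul], by rw [star_one, one_mul]⟩

theorem Sym.uni {s : H →L[ℂ] H} (hs : Sym M s) : Uni M s :=
  ⟨hs.1, by rw [hs.2.1, hs.2.2], by rw [hs.2.1, hs.2.2]⟩

/-- multiplication by unitary elements does not change the 2-norm -/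
theorem n2_uni_mul (h : Summable fun n => ‖ξ n‖ ^ 2) {u : H →L[ℂ] H} (hu : Uni M u)
    (x : H →L[ℂ] H) : n2 ξ (u * x) = n2 ξ x := by
  apply le_antisymm
  · refine (n2_mul_le h u x).trans ?_
    have := norm_of_uni hu
    nlinarith [n2_nonneg ξ x]
  · have h1 := n2_mul_le h (star u) (u * x)
    rw [← mul_assoc, hu.2.1, one_mul] at h1
    refine h1.trans ?_
    have := norm_of_uni hu.star
    nlinarith [n2_nonneg ξ (u * x)]

theorem n2_mul_uni (h : IsTr M ξ) {u x : H →L[ℂ] H} (hu : Uni M u) (hx : x ∈ M) :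
    n2 ξ (x * u) = n2 ξ x := by
  apply le_antisymm
  · refine (n2_mul_le' h hx hu.1).trans ?_
    have := norm_of_uni hu
    nlinarith [n2_nonneg ξ x]
  · have h1 := n2_mul_le' h (mul_mem hx hu.1) hu.star.1
    rw [mul_assoc, hu.2.2, mul_one] at h1
    refine h1.trans ?_
    have := norm_of_uni hu.star
    nlinarith [n2_nonneg ξ (x * u)]

theorem n2_conj (h : IsTr M ξ) {u x : H →L[ℂ] H} (hu : Uni M u) (hx : x ∈ M) :
    n2 ξ (u * x * star u) = n2 ξ x := by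
  rw [n2_mul_uni h hu.star (mul_mem hu.1 hx), n2_uni_mul h.sum hu]

theorem tr_conj (h : IsTr M ξ) {u x : H →L[ℂ] H} (hu : Uni M u) (hx : x ∈ M) :
    tr ξ (u * x * star u) = tr ξ x := by
  rw [h.comm _ (mul_mem hu.1 hx) _ hu.star.1, ← mul_assoc, hu.2.1, one_mul]

theorem norm_conj_le {u : H →L[ℂ] H} (hu : Uni M u) (x : H →L[ℂ] H) :
    ‖u * x * star u‖ ≤ ‖x‖ := by
  refine (norm_mul_le _ _).trans ?_
  have h1 := norm_mul_le u x
  have h2 := norm_of_uni hu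
  have h3 := norm_of_uni hu.star
  have h4 := norm_nonneg x
  have h5 := norm_nonneg (u * x)
  nlinarith

/-- commutators with unitary elements -/
theorem n2_comm_uni (h : IsTr M ξ) {u x : H →L[ℂ] H} (hu : Uni M u) (hx : x ∈ M) :
    n2 ξ (u * x * star u - x) = n2 ξ (u * x - x * u) := by
  have h1 : u * x * star u - x = (u * x - x * u) * star u := by
    rw [sub_mul, mul_assoc x u, hu.2.2, mul_one]
  rw [h1, n2_mul_uni h hu.star (sub_mem (mul_mem hu.1 hx) (mul_mem hx hu.1))]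

/-! ### midpoint closure -/

theorem Mc.mono {O O' : Set (H →L[ℂ] H)} (h : O ⊆ O') {x : H →L[ℂ] H} (hx : Mc O x) :
    Mc O' x := by
  induction hx with
  | base x hx => exact Mc.base x (h hx)
  | mid x y _ _ h1 h2 => exact Mc.mid x y h1 h2

/-- an affine inequality for the elements of `O` holds for its midpoint closure -/
theorem Mc.norm_le {O : Set (H →L[ℂ] H)} {V : H →L[ℂ] H} {r : ℝ}
    (h : ∀ x ∈ O, ‖x - V‖ ≤ r) {x : H →L[ℂ] H} (hx : Mc O x) : ‖x - V‖ ≤ r := by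
  induction hx with
  | base x hx => exact h x hx
  | mid x y _ _ h1 h2 =>
    have h3 : (1 / 2 : ℂ) • (x + y) - V = (1 / 2 : ℂ) • ((x - V) + (y - V)) := by module
    rw [h3, norm_smul]
    have h4 := norm_add_le (x - V) (y - V)
    have h5 : ‖(1 / 2 : ℂ)‖ = 1 / 2 := by norm_num
    rw [h5]
    linarith

theorem Mc.n2_le (hs : Summable fun n => ‖ξ n‖ ^ 2) {O : Set (H →L[ℂ] H)} {V : H →L[ℂ] H}
    {r : ℝ} (h : ∀ x ∈ O, n2 ξ (x - V) ≤ r) {x : H →L[ℂ] H} (hx : Mc O x) :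
    n2 ξ (x - V) ≤ r := by
  induction hx with
  | base x hx => exact h x hx
  | mid x y _ _ h1 h2 =>
    have h3 : (1 / 2 : ℂ) • (x + y) - V = (1 / 2 : ℂ) • ((x - V) + (y - V)) := by module
    rw [h3, n2_smul hs]
    have h4 := n2_add hs (x - V) (y - V)
    have h5 : ‖(1 / 2 : ℂ)‖ = 1 / 2 := by norm_num
    rw [h5]
    linarith

theorem Mc.mem {O : Set (H →L[ℂ] H)} (h : ∀ x ∈ O, x ∈ M) {x : H →L[ℂ] H} (hx : Mc O x) :
    x ∈ M := by
  induction hx with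
  | base x hx => exact h x hx
  | mid x y _ _ h1 h2 => exact SMulMemClass.smul_mem (s := M.toStarSubalgebra) _ (add_mem h1 h2)

theorem Mc.tr_eq (hs : Summable fun n => ‖ξ n‖ ^ 2) {O : Set (H →L[ℂ] H)} {c : ℂ}
    (h : ∀ x ∈ O, tr ξ x = c) {x : H →L[ℂ] H} (hx : Mc O x) : tr ξ x = c := by
  induction hx with
  | base x hx => exact h x hx
  | mid x y _ _ h1 h2 =>
    rw [tr_smul, tr_add hs, h1, h2]
    ring

theorem smul_mem' (M : VonNeumannAlgebra H) (c : ℂ) {x : H →L[ℂ] H} (hx : x ∈ M) :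
    c • x ∈ M := SMulMemClass.smul_mem (s := M.toStarSubalgebra) c hx

/-- `M'' = M` -/
theorem mem_of_comm {x : H →L[ℂ] H}
    (h : ∀ y : H →L[ℂ] H, (∀ z ∈ M, z * y = y * z) → x * y = y * x) : x ∈ M := by
  rw [← M.commutant_commutant, VonNeumannAlgebra.mem_commutant_iff]
  intro y hy
  rw [VonNeumannAlgebra.mem_commutant_iff] at hy
  exact (h y hy).symm

end Pool.Agent.H80.G2
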