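import Pool.Agent.H80.G2.Targets

/-!
# MP_323167_an, property Gamma: assembly
-/

set_option autoImplicit false

open scoped InnerProductSpace Topology
open Filter Finset

namespace Pool.Agent.H80.G2

variable {H : Type} [NormedAddCommGroup H] [InnerProductSpace ℂ H] [CompleteSpace H]

theorem bal_fin (M N : VonNeumannAlgebra H) : Metric.hausdorffEDist (bal M) (bal N) ≠ ⊤ := by
  refine Metric.hausdorffEDist_ne_top_of_nonempty_of_bounded ⟨0, zero_mem M, by simp⟩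
    ⟨0, zero_mem N, by simp⟩ ?_ ?_
  · exact (Metric.isBounded_closedBall (x := (0 : H →L[ℂ] H)) (r := 1)).subset
      fun x hx => by rw [mem_closedBall_zero_iff]; exact hx.2
  · exact (Metric.isBounded_closedBall (x := (0 : H →L[ℂ] H)) (r := 1)).subset
      fun x hx => by rw [mem_closedBall_zero_iff]; exact hx.2

theorem nr_of_dist {M N : VonNeumannAlgebra H} {ε : ℝ}
    (h : Metric.hausdorffDist (bal M) (bal N) < ε) : Nr ε M N ∧ Nr ε N M := by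
  constructor
  · intro x hx hx1
    obtain ⟨y, hy, h1⟩ := Metric.exists_dist_lt_of_hausdorffDist_lt
      (show x ∈ bal M from ⟨hx, hx1⟩) h (bal_fin M N)
    exact ⟨y, hy.1, hy.2, by rw [← dist_eq_norm]; exact h1.le⟩
  · intro x hx hx1
    rw [Metric.hausdorffDist_comm] at h
    obtain ⟨y, hy, h1⟩ := Metric.exists_dist_lt_of_hausdorffDist_lt
      (show x ∈ bal N from ⟨hx, hx1⟩) h (bal_fin N M)
    exact ⟨y, hy.1, hy.2, by rw [← dist_eq_norm]; exact h1.le⟩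

variable {N : VonNeumannAlgebra H} {ξ : ℕ → H} {θ : (H →L[ℂ] H) → (H →L[ℂ] H)}

theorem Inv.one (h : Inv N ξ θ) : θ 1 = 1 := by
  have h1 := h.mul 1 (one_mem N) (θ 1) (h.mem 1 (one_mem N))
  rw [one_mul, h.inv 1 (one_mem N), mul_one] at h1
  exact h1.symm

theorem Inv.neg (h : Inv N ξ θ) {x : H →L[ℂ] H} (hx : x ∈ N) : θ (-x) = - θ x := by
  have := h.smul (-1) x hx
  rwa [neg_one_smul, neg_one_smul] at this

theorem Inv.sub (h : Inv N ξ θ) {x y : H →L[ℂ] H} (hx : x ∈ N) (hy : y ∈ N) :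
    θ (x - y) = θ x - θ y := by
  rw [sub_eq_add_neg, h.add x hx _ (neg_mem hy), h.neg hy, ← sub_eq_add_neg]

theorem n2_one_add (h : HasSum (fun n => ‖ξ n‖ ^ 2) 1) (c : ℂ) (x : H →L[ℂ] H) :
    n2 ξ (1 + c • x) ^ 2 = 1 + ‖c‖ ^ 2 * n2 ξ x ^ 2 + 2 * (c * tr ξ x).re := by
  have h1 : ⟪emb h.summable (1 : H →L[ℂ] H), emb h.summable x⟫_ℂ = tr ξ x := by
    rw [inner_emb, star_one, one_mul]
  rw [← norm_emb h.summable, ← norm_emb h.summable, map_add, map_smul]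
  have h3 := @norm_add_sq ℂ _ _ _ _ (emb h.summable 1) (c • emb h.summable x)
  rw [inner_smul_right, norm_smul, norm_emb h.summable 1, n2_one h, h1] at h3
  rw [h3]
  have h4 : RCLike.re (c * tr ξ x) = (c * tr ξ x).re := rfl
  rw [h4]
  ring

theorem Inv.tr_eq (h : Inv N ξ θ) (hξ : IsTr N ξ) {x : H →L[ℂ] H} (hx : x ∈ N) :
    tr ξ (θ x) = tr ξ x := by
  have key : ∀ c : ℂ, (c * tr ξ (θ x)).re = (c * tr ξ x).re := by
    intro c
    have h1 := h.n2 (1 + c • x) (add_mem (one_mem N) (smul_mem' N c hx))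
    rw [h.add 1 (one_mem N) _ (smul_mem' N c hx), h.one, h.smul c x hx] at h1
    have h2 := n2_one_add hξ.one c x
    have h3 := n2_one_add hξ.one c (θ x)
    rw [h1, h.n2 x hx] at h3
    linarith
  have h1 := key 1
  have h2 := key Complex.I
  rw [one_mul, one_mul] at h1
  rw [Complex.I_mul_re, Complex.I_mul_re] at h2
  exact Complex.ext h1 (by linarith)

theorem pf_MAIN (hTRC : T_TRC) (hTRA : T_TRA) (hCUT : T_CUT) (hBLD : T_BLD) (hLIM : T_LIM)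
    (hFIX : T_FIX) (hFCP : T_FCP) (hUNM : T_UNM) : T_MAIN := by
  intro H _ _ _ _ M N hM hN hG hd
  obtain ⟨hn1, hn2⟩ := nr_of_dist hd
  obtain ⟨ξ, hξ⟩ := hN.tr
  have hAlm := hTRA H M N ξ hM.fac hG hξ hn1 hn2
  have hAls := hCUT H N ξ hξ hAlm
  obtain ⟨w, hw1, hw2, hw3⟩ := hBLD H N ξ hξ hN.fac hAls
  obtain ⟨θ, hθ⟩ := hLIM H N ξ hξ w hw1 hw2 hw3
  obtain ⟨P, hP⟩ := hFIX H N ξ θ hξ hθ
  have hPf := hFCP H N ξ θ hN.fac hθ P hP
  obtain ⟨u, hu, hθu⟩ := hUNM H N ξ θ hξ hθ P hP hPf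
  have hθu' : θ (star u) = - star u := by rw [hθ.star u hu.1, hθu, star_neg]
  refine ⟨P, u, hPf, fun x hx => ((hP x).1 hx).1, hu, ?_, ?_, ?_⟩
  · intro x hx
    obtain ⟨hxN, hxθ⟩ := (hP x).1 hx
    refine (hP _).2 ⟨mul_mem (mul_mem hu.1 hxN) hu.star.1, ?_⟩
    rw [hθ.mul _ (mul_mem hu.1 hxN) _ hu.star.1, hθ.mul _ hu.1 _ hxN, hθu, hxθ, hθu',
      neg_mul, neg_mul_neg]
  · intro ξ' hξ' x hx
    obtain ⟨hxN, hxθ⟩ := (hP x).1 hx
    have hxu := mul_mem hxN hu.1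
    have h1 := hTRC H N N ξ ξ' hξ hN.fac hξ' 0 le_rfl
      (fun y hy hy1 => ⟨y, hy, hy1, by rw [sub_self, norm_zero]⟩) (x * u) hxu (x * u) hxu
    rw [sub_self, norm_zero, zero_mul, mul_zero, zero_mul, add_zero, add_zero] at h1
    have h2 : tr ξ' (x * u) = tr ξ (x * u) := by
      rw [← sub_eq_zero]
      exact norm_le_zero_iff.1 h1
    have h3 := hθ.tr_eq hξ hxu
    rw [hθ.mul x hxN u hu.1, hxθ, hθu, mul_neg, tr_neg] at h3
    rw [h2]
    linear_combination (-1 / 2 : ℂ) * h3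
  · intro x hx
    have hx' := hθ.mem x hx
    refine ⟨(1 / 2 : ℂ) • (x + θ x), (hP _).2 ⟨smul_mem' N _ (add_mem hx hx'), ?_⟩,
      (1 / 2 : ℂ) • ((x - θ x) * star u), (hP _).2 ⟨smul_mem' N _ (mul_mem (sub_mem hx hx')
        hu.star.1), ?_⟩, ?_⟩
    · rw [hθ.smul _ _ (add_mem hx hx'), hθ.add x hx _ hx', hθ.inv x hx, add_comm]
    · rw [hθ.smul _ _ (mul_mem (sub_mem hx hx') hu.star.1), hθ.mul _ (sub_mem hx hx') _
        hu.star.1, hθ.sub hx hx', hθ.inv x hx, hθu', mul_neg, ← neg_mul, neg_sub]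
    · rw [smul_mul_assoc, mul_assoc, hu.2.1, mul_one]
      module

end Pool.Agent.H80.G2
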