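import Mathlib

/-!
# MP_323167_an: index 2 subfactors of close II_1 factors. Definitions.

All algebras are von Neumann algebras on a complex Hilbert space `H`.
-/

set_option autoImplicit false

open scoped InnerProductSpace

namespace Pool.Agent.H80.G2

variable {H : Type} [NormedAddCommGroup H] [InnerProductSpace ℂ H] [CompleteSpace H]

/-- the functional `x ↦ ∑ ⟨ξ n, x ξ n⟩` -/
noncomputable def tr (ξ : ℕ → H) (x : H →L[ℂ] H) : ℂ := ∑' n, ⟪ξ n, x (ξ n)⟫_ℂ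

/-- the 2-norm `(∑ ‖x ξ n‖²)^(1/2)` of this functional -/
noncomputable def n2 (ξ : ℕ → H) (x : H →L[ℂ] H) : ℝ := Real.sqrt (∑' n, ‖x (ξ n)‖ ^ 2)

/-- the centre of `M` is trivial -/
def IsFac (M : VonNeumannAlgebra H) : Prop :=
  ∀ x ∈ M, (∀ y ∈ M, x * y = y * x) → ∃ c : ℂ, x = c • (1 : H →L[ℂ] H)

/-- the functional given by the vectors `ξ n` is a faithful (normal) tracial state of `M` -/
structure IsTr (M : VonNeumannAlgebra H) (ξ : ℕ → H) : Prop where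
  one : HasSum (fun n => ‖ξ n‖ ^ 2) 1
  comm : ∀ x ∈ M, ∀ y ∈ M, tr ξ (x * y) = tr ξ (y * x)
  faith : ∀ x ∈ M, tr ξ (star x * x) = 0 → x = 0

/-- II_1 factors: infinite-dimensional factors with a faithful normal tracial state -/
structure IsII1 (M : VonNeumannAlgebra H) : Prop where
  fac : IsFac M
  inf : ¬ FiniteDimensional ℂ M.toStarSubalgebra
  tr : ∃ ξ : ℕ → H, IsTr M ξ

/-- unitary elements of `M` -/
def Uni (M : VonNeumannAlgebra H) (u : H →L[ℂ] H) : Prop :=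
  u ∈ M ∧ star u * u = 1 ∧ u * star u = 1

/-- symmetries of `M` -/
def Sym (M : VonNeumannAlgebra H) (s : H →L[ℂ] H) : Prop := s ∈ M ∧ star s = s ∧ s * s = 1

/-- projections of `M` -/
def Prj (M : VonNeumannAlgebra H) (e : H →L[ℂ] H) : Prop := e ∈ M ∧ star e = e ∧ e * e = e

/-- property Gamma of Murray and von Neumann -/
def Gam (M : VonNeumannAlgebra H) : Prop :=
  ∃ ξ : ℕ → H, IsTr M ξ ∧ ∀ F : Finset (H →L[ℂ] H), (∀ x ∈ F, x ∈ M) → ∀ δ : ℝ, 0 < δ →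
    ∃ u, Uni M u ∧ tr ξ u = 0 ∧ ∀ x ∈ F, n2 ξ (u * x - x * u) < δ

/-- the closed unit ball -/
def bal (M : VonNeumannAlgebra H) : Set (H →L[ℂ] H) := {x | x ∈ M ∧ ‖x‖ ≤ 1}

/-- every element of the unit ball of `M` is near the unit ball of `N` -/
def Nr (ε : ℝ) (M N : VonNeumannAlgebra H) : Prop :=
  ∀ x ∈ M, ‖x‖ ≤ 1 → ∃ y ∈ N, ‖y‖ ≤ 1 ∧ ‖x - y‖ ≤ ε

/-- `N` has an index 2 subfactor -/
def Ind2 (N : VonNeumannAlgebra H) : Prop :=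
  ∃ (P : VonNeumannAlgebra H) (u : H →L[ℂ] H), IsFac P ∧ (∀ x ∈ P, x ∈ N) ∧ Uni N u ∧
    (∀ x ∈ P, u * x * star u ∈ P) ∧ (∀ ξ : ℕ → H, IsTr N ξ → ∀ x ∈ P, tr ξ (x * u) = 0) ∧
    ∀ x ∈ N, ∃ y ∈ P, ∃ z ∈ P, x = y + z * u

/-- midpoint closure -/
inductive Mc (O : Set (H →L[ℂ] H)) : (H →L[ℂ] H) → Prop
  | base (x : H →L[ℂ] H) (h : x ∈ O) : Mc O x
  | mid (x y : H →L[ℂ] H) (hx : Mc O x) (hy : Mc O y) : Mc O ((1 / 2 : ℂ) • (x + y))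

/-- the conjugates of `x` by unitary elements of `M` -/
def Orb (M : VonNeumannAlgebra H) (x : H →L[ℂ] H) : Set (H →L[ℂ] H) :=
  {y | ∃ u, Uni M u ∧ y = u * x * star u}

/-- almost central elements which are not almost scalar -/
def Alm (c : ℝ) (N : VonNeumannAlgebra H) (ξ : ℕ → H) : Prop :=
  ∀ F : Finset (H →L[ℂ] H), (∀ x ∈ F, x ∈ N) → ∀ δ : ℝ, 0 < δ →
    ∃ T ∈ N, ‖T‖ ≤ 1 ∧ (∀ x ∈ F, n2 ξ (T * x - x * T) < δ) ∧
      c ≤ n2 ξ (T - tr ξ T • (1 : H →L[ℂ] H))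

/-- almost central symmetries which are not almost scalar -/
def Als (c : ℝ) (N : VonNeumannAlgebra H) (ξ : ℕ → H) : Prop :=
  ∀ F : Finset (H →L[ℂ] H), (∀ x ∈ F, x ∈ N) → ∀ δ : ℝ, 0 < δ →
    ∃ s, Sym N s ∧ (∀ x ∈ F, n2 ξ (s * x - x * s) < δ) ∧
      c ≤ n2 ξ (s - tr ξ s • (1 : H →L[ℂ] H))

/-- an outer involution of `N` -/
structure Inv (N : VonNeumannAlgebra H) (ξ : ℕ → H) (θ : (H →L[ℂ] H) → (H →L[ℂ] H)) :
    Prop where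
  mem : ∀ x ∈ N, θ x ∈ N
  add : ∀ x ∈ N, ∀ y ∈ N, θ (x + y) = θ x + θ y
  smul : ∀ (c : ℂ), ∀ x ∈ N, θ (c • x) = c • θ x
  mul : ∀ x ∈ N, ∀ y ∈ N, θ (x * y) = θ x * θ y
  star : ∀ x ∈ N, θ (star x) = star (θ x)
  inv : ∀ x ∈ N, θ (θ x) = x
  n2 : ∀ x ∈ N, n2 ξ (θ x) = n2 ξ x
  out : ∀ v, Uni N v → ∃ x ∈ N, θ x ≠ v * x * Star.star v

end Pool.Agent.H80.G2
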