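import Pool.Agent.H80.G2.Basic

/-!
# MP_323167_an, property Gamma: targets

Every `T_X` is proved in a module of its own. Page: H80_GAM.md.
-/

set_option autoImplicit false

open scoped InnerProductSpace Topology
open Filter Finset

namespace Pool.Agent.H80.G2

/-! ### tools -/

/-- CFC. Continuous functions of self-adjoint elements. -/
def T_CFC : Prop :=
  ∀ (H : Type) [NormedAddCommGroup H] [InnerProductSpace ℂ H] [CompleteSpace H]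
    (M : VonNeumannAlgebra H) (a : H →L[ℂ] H), a ∈ M → star a = a → ∀ f : ℝ → ℝ, cfc f a ∈ M

/-- RNG. The projection on the closed range of a self-adjoint element. -/
def T_RNG : Prop :=
  ∀ (H : Type) [NormedAddCommGroup H] [InnerProductSpace ℂ H] [CompleteSpace H]
    (M : VonNeumannAlgebra H) (h : H →L[ℂ] H), h ∈ M → star h = h →
    ∃ e, Prj M e ∧ e * h = h ∧ (∀ k : H →L[ℂ] H, k * h = 0 → k * e = 0) ∧
      ∀ y : H →L[ℂ] H, y * h = h * y → star y * h = h * star y → y * e = e * y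

/-- SGN. The sign of a self-adjoint contraction. -/
def T_SGN : Prop :=
  ∀ (H : Type) [NormedAddCommGroup H] [InnerProductSpace ℂ H] [CompleteSpace H]
    (M : VonNeumannAlgebra H) (ξ : ℕ → H), IsTr M ξ → ∀ T ∈ M, star T = T → ‖T‖ ≤ 1 →
    ∃ s, Sym M s ∧ n2 ξ (s - T) ≤ n2 ξ (1 - T * T) ∧
      ∀ y : H →L[ℂ] H, y * T = T * y → star y * T = T * star y → y * s = s * y

/-- UNS. Linear combinations of unitary elements. -/
def T_UNS : Prop :=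
  ∀ (H : Type) [NormedAddCommGroup H] [InnerProductSpace ℂ H] [CompleteSpace H]
    (M : VonNeumannAlgebra H) (x : H →L[ℂ] H), x ∈ M →
    ∃ (c : Fin 4 → ℂ) (u : Fin 4 → (H →L[ℂ] H)), (∀ i, Uni M (u i)) ∧ (∀ i, ‖c i‖ ≤ ‖x‖) ∧
      x = ∑ i, c i • u i

/-- DEN. The vectors `y (ξ n)`, `y` in the commutant, span a dense subspace. -/
def T_DEN : Prop :=
  ∀ (H : Type) [NormedAddCommGroup H] [InnerProductSpace ℂ H] [CompleteSpace H]
    (M : VonNeumannAlgebra H) (ξ : ℕ → H), IsTr M ξ → ∀ ζ : H,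
    ζ ∈ (Submodule.span ℂ {η : H | ∃ y : H →L[ℂ] H, (∀ z ∈ M, z * y = y * z) ∧
      ∃ n, η = y (ξ n)}).topologicalClosure

/-- CMP. The unit ball is complete in the 2-norm. -/
def T_CMP : Prop :=
  ∀ (H : Type) [NormedAddCommGroup H] [InnerProductSpace ℂ H] [CompleteSpace H]
    (M : VonNeumannAlgebra H) (ξ : ℕ → H), IsTr M ξ → ∀ (x : ℕ → (H →L[ℂ] H)) (C : ℝ),
    (∀ k, x k ∈ M) → (∀ k, ‖x k‖ ≤ C) →
    (∀ ε : ℝ, 0 < ε → ∃ K, ∀ j, K ≤ j → ∀ k, K ≤ k → n2 ξ (x j - x k) < ε) →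
    ∃ z ∈ M, ‖z‖ ≤ C ∧ Tendsto (fun k => n2 ξ (x k - z)) atTop (𝓝 0)

/-- STR. Convergence in the 2-norm of bounded sequences implies strong convergence. -/
def T_STR : Prop :=
  ∀ (H : Type) [NormedAddCommGroup H] [InnerProductSpace ℂ H] [CompleteSpace H]
    (M : VonNeumannAlgebra H) (ξ : ℕ → H), IsTr M ξ → ∀ (x : ℕ → (H →L[ℂ] H)) (C : ℝ)
    (z : H →L[ℂ] H), (∀ k, x k ∈ M) → (∀ k, ‖x k‖ ≤ C) → z ∈ M →
    Tendsto (fun k => n2 ξ (x k - z)) atTop (𝓝 0) →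
    ∀ ζ : H, Tendsto (fun k => x k ζ) atTop (𝓝 (z ζ))

/-! ### averages -/

/-- AVG. Averages over the unitary group converge to the trace. -/
def T_AVG : Prop :=
  ∀ (H : Type) [NormedAddCommGroup H] [InnerProductSpace ℂ H] [CompleteSpace H]
    (M : VonNeumannAlgebra H) (ξ : ℕ → H), IsTr M ξ → IsFac M → ∀ x ∈ M,
    ∃ T : ℕ → (H →L[ℂ] H), (∀ k, Mc (Orb M x) (T k)) ∧
      Tendsto (fun k => n2 ξ (T k - tr ξ x • (1 : H →L[ℂ] H))) atTop (𝓝 0)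

/-- AVU. The distance to the scalars is bounded by the commutators with unitary elements. -/
def T_AVU : Prop :=
  ∀ (H : Type) [NormedAddCommGroup H] [InnerProductSpace ℂ H] [CompleteSpace H]
    (M : VonNeumannAlgebra H) (ξ : ℕ → H), IsTr M ξ → IsFac M → ∀ x ∈ M, ∀ r : ℝ,
    (∀ u, Uni M u → n2 ξ (u * x - x * u) ≤ r) → n2 ξ (x - tr ξ x • (1 : H →L[ℂ] H)) ≤ r

/-- TRC. Comparison of the traces of two close algebras. -/
def T_TRC : Prop :=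
  ∀ (H : Type) [NormedAddCommGroup H] [InnerProductSpace ℂ H] [CompleteSpace H]
    (M N : VonNeumannAlgebra H) (ξ ζ : ℕ → H), IsTr M ξ → IsFac M → IsTr N ζ → ∀ ε : ℝ, 0 ≤ ε →
    Nr ε M N → ∀ x ∈ M, ∀ y ∈ N, ‖tr ζ y - tr ξ x‖ ≤ ‖x - y‖ + ε * ‖x‖ + 3 * ε * ‖y‖

/-- SPG. Greedy averages. -/
def T_SPG : Prop :=
  ∀ (H : Type) [NormedAddCommGroup H] [InnerProductSpace ℂ H] [CompleteSpace H]
    (N : VonNeumannAlgebra H) (ξ : ℕ → H), IsTr N ξ → ∀ F : Finset (H →L[ℂ] H),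
    (∀ x ∈ F, Uni N x) → ∀ δ : ℝ, 0 < δ → ∃ W : Finset (H →L[ℂ] H), (∀ w ∈ W, Uni N w) ∧
      ∀ V ∈ N, ‖V‖ ≤ 1 → ∃ T, Mc {z | ∃ w ∈ W, z = w * V * star w} T ∧
        ∀ x ∈ F, n2 ξ (x * T - T * x) < δ

/-- TRA. Transfer of almost central elements. -/
def T_TRA : Prop :=
  ∀ (H : Type) [NormedAddCommGroup H] [InnerProductSpace ℂ H] [CompleteSpace H]
    (M N : VonNeumannAlgebra H) (ξ : ℕ → H), IsFac M → Gam M → IsTr N ξ → Nr (1 / 100) M N →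
    Nr (1 / 100) N M → Alm (2 / 5) N ξ

/-! ### symmetries -/

/-- LAY. Approximation of a self-adjoint contraction by decreasing projections. -/
def T_LAY : Prop :=
  ∀ (H : Type) [NormedAddCommGroup H] [InnerProductSpace ℂ H] [CompleteSpace H]
    (M : VonNeumannAlgebra H) (a : H →L[ℂ] H), a ∈ M → star a = a → ‖a‖ ≤ 1 → ∀ K : ℕ, 0 < K →
    ∃ e : ℕ → (H →L[ℂ] H), (∀ k, Prj M (e k)) ∧ (∀ k, e k * e (k + 1) = e (k + 1)) ∧
      ‖a + 1 - ((2 / K : ℝ) : ℂ) • ∑ k ∈ range K, e k‖ ≤ 2 / K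

/-- COM. Commutators with decreasing projections. -/
def T_COM : Prop :=
  ∀ (H : Type) [NormedAddCommGroup H] [InnerProductSpace ℂ H] [CompleteSpace H]
    (M : VonNeumannAlgebra H) (ξ : ℕ → H), IsTr M ξ → ∀ (K : ℕ) (e : ℕ → (H →L[ℂ] H)),
    (∀ k, Prj M (e k)) → (∀ k, e k * e (k + 1) = e (k + 1)) → ∀ x ∈ M,
    ∑ k ∈ range K, n2 ξ (e k * x - x * e k) ^ 2 ≤
      n2 ξ ((∑ k ∈ range K, e k) * x - x * ∑ k ∈ range K, e k) * n2 ξ x

/-- CUT. Almost central symmetries. -/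
def T_CUT : Prop :=
  ∀ (H : Type) [NormedAddCommGroup H] [InnerProductSpace ℂ H] [CompleteSpace H]
    (N : VonNeumannAlgebra H) (ξ : ℕ → H), IsTr N ξ → Alm (2 / 5) N ξ → Als (1 / 20) N ξ

/-- STP. Almost central symmetries which commute with a finite group. -/
def T_STP : Prop :=
  ∀ (H : Type) [NormedAddCommGroup H] [InnerProductSpace ℂ H] [CompleteSpace H]
    (N : VonNeumannAlgebra H) (ξ : ℕ → H), IsTr N ξ → Als (1 / 20) N ξ →
    ∀ G : Finset (H →L[ℂ] H), (∀ g ∈ G, Uni N g) → (1 : H →L[ℂ] H) ∈ G →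
    (∀ g ∈ G, ∀ h ∈ G, g * h ∈ G) → (∀ g ∈ G, star g ∈ G) →
    ∀ F : Finset (H →L[ℂ] H), (∀ x ∈ F, x ∈ N) → ∀ δ : ℝ, 0 < δ →
    ∃ s, Sym N s ∧ (∀ g ∈ G, g * s = s * g) ∧ (∀ x ∈ F, n2 ξ (s * x - x * s) < δ) ∧
      1 / 40 ≤ n2 ξ (s - tr ξ s • (1 : H →L[ℂ] H))

/-- DNS. The unit ball is separable in the 2-norm. -/
def T_DNS : Prop :=
  ∀ (H : Type) [NormedAddCommGroup H] [InnerProductSpace ℂ H] [CompleteSpace H]
    [TopologicalSpace.SeparableSpace H] (N : VonNeumannAlgebra H) (ξ : ℕ → H), IsTr N ξ →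
    ∃ x : ℕ → (H →L[ℂ] H), (∀ n, x n ∈ N ∧ ‖x n‖ ≤ 1) ∧
      ∀ y ∈ N, ‖y‖ ≤ 1 → ∀ ε : ℝ, 0 < ε → ∃ n, n2 ξ (y - x n) < ε

/-! ### the involution -/

/-- BLD. Symmetries which converge to an outer involution. -/
def T_BLD : Prop :=
  ∀ (H : Type) [NormedAddCommGroup H] [InnerProductSpace ℂ H] [CompleteSpace H]
    [TopologicalSpace.SeparableSpace H] (N : VonNeumannAlgebra H) (ξ : ℕ → H), IsTr N ξ →
    IsFac N → Als (1 / 20) N ξ → ∃ w : ℕ → (H →L[ℂ] H), (∀ n, Sym N (w n)) ∧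
      (∀ x ∈ N, ∀ ε : ℝ, 0 < ε → ∃ K, ∀ j, K ≤ j → ∀ k, K ≤ k →
        n2 ξ (w j * x * w j - w k * x * w k) < ε) ∧
      ∀ v, Uni N v → ∃ x ∈ N,
        ¬ Tendsto (fun k => n2 ξ (w k * x * w k - v * x * star v)) atTop (𝓝 0)

/-- LIM. The limit is an outer involution. -/
def T_LIM : Prop :=
  ∀ (H : Type) [NormedAddCommGroup H] [InnerProductSpace ℂ H] [CompleteSpace H]
    (N : VonNeumannAlgebra H) (ξ : ℕ → H), IsTr N ξ → ∀ w : ℕ → (H →L[ℂ] H),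
    (∀ n, Sym N (w n)) →
    (∀ x ∈ N, ∀ ε : ℝ, 0 < ε → ∃ K, ∀ j, K ≤ j → ∀ k, K ≤ k →
      n2 ξ (w j * x * w j - w k * x * w k) < ε) →
    (∀ v, Uni N v → ∃ x ∈ N,
      ¬ Tendsto (fun k => n2 ξ (w k * x * w k - v * x * star v)) atTop (𝓝 0)) →
    ∃ θ, Inv N ξ θ

/-! ### the subfactor -/

/-- FIX. The fixed points are a von Neumann algebra. -/
def T_FIX : Prop :=
  ∀ (H : Type) [NormedAddCommGroup H] [InnerProductSpace ℂ H] [CompleteSpace H]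
    (N : VonNeumannAlgebra H) (ξ : ℕ → H) (θ : (H →L[ℂ] H) → (H →L[ℂ] H)), IsTr N ξ →
    Inv N ξ θ → ∃ P : VonNeumannAlgebra H, ∀ x, x ∈ P ↔ x ∈ N ∧ θ x = x

/-- FCT. Products in a factor. -/
def T_FCT : Prop :=
  ∀ (H : Type) [NormedAddCommGroup H] [InnerProductSpace ℂ H] [CompleteSpace H]
    (P : VonNeumannAlgebra H), IsFac P → ∀ x ∈ P, ∀ y : H →L[ℂ] H, (∀ p ∈ P, x * p * y = 0) →
    x = 0 ∨ y = 0

/-- ZPR. If `P` is not a factor then there is a nontrivial central projection. -/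
def T_ZPR : Prop :=
  ∀ (H : Type) [NormedAddCommGroup H] [InnerProductSpace ℂ H] [CompleteSpace H]
    (P : VonNeumannAlgebra H), ¬ IsFac P →
    ∃ e, Prj P e ∧ (∀ y ∈ P, e * y = y * e) ∧ e ≠ 0 ∧ e ≠ 1

/-- FCP. The fixed points are a factor. -/
def T_FCP : Prop :=
  ∀ (H : Type) [NormedAddCommGroup H] [InnerProductSpace ℂ H] [CompleteSpace H]
    (N : VonNeumannAlgebra H) (ξ : ℕ → H) (θ : (H →L[ℂ] H) → (H →L[ℂ] H)), IsFac N →
    Inv N ξ θ → ∀ P : VonNeumannAlgebra H, (∀ x, x ∈ P ↔ x ∈ N ∧ θ x = x) → IsFac P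

/-- PIS. Partial isometries. -/
def T_PIS : Prop :=
  ∀ (H : Type) [NormedAddCommGroup H] [InnerProductSpace ℂ H] [CompleteSpace H]
    (P : VonNeumannAlgebra H) (y : H →L[ℂ] H), y ≠ 0 → star y * y ∈ P →
    ∃ b ∈ P, y * b ≠ 0 ∧ Prj P (star (y * b) * (y * b)) ∧
      ∀ z : H →L[ℂ] H, y * z = 0 → y * b * z = 0

/-- EXH. A maximal partial isometry in the `-1`-eigenspace. -/
def T_EXH : Prop :=
  ∀ (H : Type) [NormedAddCommGroup H] [InnerProductSpace ℂ H] [CompleteSpace H]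
    (N : VonNeumannAlgebra H) (ξ : ℕ → H) (θ : (H →L[ℂ] H) → (H →L[ℂ] H)), IsTr N ξ →
    Inv N ξ θ → ∃ v ∈ N, θ v = -v ∧ Prj N (star v * v) ∧
      ∀ v' ∈ N, θ v' = -v' → Prj N (star v' * v') → v' * (star v * v) = 0 →
        v * star v * v' = 0 → v' = 0

/-- UNM. A unitary element in the `-1`-eigenspace. -/
def T_UNM : Prop :=
  ∀ (H : Type) [NormedAddCommGroup H] [InnerProductSpace ℂ H] [CompleteSpace H]
    (N : VonNeumannAlgebra H) (ξ : ℕ → H) (θ : (H →L[ℂ] H) → (H →L[ℂ] H)), IsTr N ξ →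
    Inv N ξ θ → ∀ P : VonNeumannAlgebra H, (∀ x, x ∈ P ↔ x ∈ N ∧ θ x = x) → IsFac P →
    ∃ u, Uni N u ∧ θ u = -u

/-- MAIN. Index 2 subfactors of factors close to a factor with property Gamma. -/
def T_MAIN : Prop :=
  ∀ (H : Type) [NormedAddCommGroup H] [InnerProductSpace ℂ H] [CompleteSpace H]
    [TopologicalSpace.SeparableSpace H] (M N : VonNeumannAlgebra H), IsII1 M → IsII1 N →
    Gam M → Metric.hausdorffDist (bal M) (bal N) < 1 / 100 → Ind2 N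

end Pool.Agent.H80.G2
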